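import Pool.Agent.Helper51.BW.Spec

/-! # BW, part CASES -/

set_option autoImplicit false

namespace Pool.Agent.Helper88.BW.CASES

open Pool.Agent.Helper51.BW

theorem fn_true {d : ℕ} (a : Fin d → ℝ) (j : Fin d) : fn a (j, true) = a j := by
  unfold fn ip dir
  rw [Finset.sum_eq_single j]
  · simp
  · intro i _ hi
    simp [Pi.single_eq_of_ne hi]
  · simp

theorem fn_false {d : ℕ} (a : Fin d → ℝ) (j : Fin d) : fn a (j, false) = -a j := by
  unfold fn ip dir
  rw [Finset.sum_eq_single j]
  · simp
  · intro i _ hi
    simp [Pi.single_eq_of_ne hi]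
  · simp

theorem sum_fn {d : ℕ} (p : D d → ℝ) (a : Fin d → ℝ) :
    ∑ e, p e * fn a e = ∑ j, a j * drift p j := by
  rw [Fintype.sum_prod_type]
  refine Finset.sum_congr rfl fun j _ => ?_
  rw [Fintype.sum_bool, fn_true, fn_false]
  unfold drift
  ring

theorem exists_orth {d : ℕ} (hd : 2 ≤ d) (u : Fin d → ℝ) :
    ∃ n : Fin d → ℝ, ∑ j, n j ^ 2 = 1 ∧ ∑ j, n j * u j = 0 := by
  let i : Fin d := ⟨0, by omega⟩
  let k : Fin d := ⟨1, by omega⟩
  have hik : i ≠ k := by
    intro h
    have := congrArg Fin.val h
    simp [i, k] at this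
  by_cases h : u i ^ 2 + u k ^ 2 = 0
  · have hi : u i = 0 := by nlinarith [sq_nonneg (u i), sq_nonneg (u k)]
    refine ⟨fun j => if j = i then 1 else 0, ?_, ?_⟩
    · simp
    · simp [hi]
  · have hpos : 0 < u i ^ 2 + u k ^ 2 :=
      lt_of_le_of_ne (by positivity) (Ne.symm h)
    set s := Real.sqrt (u i ^ 2 + u k ^ 2) with hs
    have hs2 : s ^ 2 = u i ^ 2 + u k ^ 2 := Real.sq_sqrt hpos.le
    have hs0 : 0 < s := Real.sqrt_pos.mpr hpos
    refine ⟨fun j => (if j = i then u k / s else 0) + (if j = k then -(u i / s) else 0), ?_, ?_⟩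
    · have h1 : ∀ j : Fin d, ((if j = i then u k / s else 0) + (if j = k then -(u i / s) else 0)) ^ 2
          = (if j = i then (u k / s) ^ 2 else 0) + (if j = k then (u i / s) ^ 2 else 0) := by
        intro j
        by_cases h1 : j = i
        · subst h1
          simp [hik]
        · by_cases h2 : j = k
          · subst h2
            simp [h1]
          · simp [h1, h2]
      simp only [h1, Finset.sum_add_distrib, Finset.sum_ite_eq', Finset.mem_univ, if_true]
      rw [div_pow, div_pow, hs2]
      field_simp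
      ring
    · simp only [add_mul, ite_mul, zero_mul, Finset.sum_add_distrib, Finset.sum_ite_eq',
        Finset.mem_univ, if_true]
      field_simp
      ring

theorem main : S_CASES := by
  intro d hd p q h _ _ hph hqh
  simp only [sum_fn] at *
  set x := drift p with hx
  set y := drift q with hy
  -- norms
  have hx0 : 0 < ∑ j, x j ^ 2 := by
    by_contra hc
    have h0 : ∑ j, x j ^ 2 = 0 :=
      le_antisymm (not_lt.mp hc) (Finset.sum_nonneg fun j _ => sq_nonneg _)
    have h1 : ∀ j, x j = 0 := by
      intro j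
      have := (Finset.sum_eq_zero_iff_of_nonneg (fun j _ => sq_nonneg (x j))).mp h0 j
        (Finset.mem_univ j)
      exact pow_eq_zero_iff (two_ne_zero) |>.mp this
    simp [h1] at hph
  have hy0 : 0 < ∑ j, y j ^ 2 := by
    by_contra hc
    have h0 : ∑ j, y j ^ 2 = 0 :=
      le_antisymm (not_lt.mp hc) (Finset.sum_nonneg fun j _ => sq_nonneg _)
    have h1 : ∀ j, y j = 0 := by
      intro j
      have := (Finset.sum_eq_zero_iff_of_nonneg (fun j _ => sq_nonneg (y j))).mp h0 j
        (Finset.mem_univ j)
      exact pow_eq_zero_iff (two_ne_zero) |>.mp this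
    simp [h1] at hqh
  set g := Real.sqrt (∑ j, x j ^ 2) with hg
  set g' := Real.sqrt (∑ j, y j ^ 2) with hg'
  have hg0 : 0 < g := Real.sqrt_pos.mpr hx0
  have hg'0 : 0 < g' := Real.sqrt_pos.mpr hy0
  have hg2 : ∑ j, x j ^ 2 = g ^ 2 := (Real.sq_sqrt hx0.le).symm
  have hg'2 : ∑ j, y j ^ 2 = g' ^ 2 := (Real.sq_sqrt hy0.le).symm
  set c := ∑ j, x j * y j with hc
  -- the square of the norm of the sum of the unit vectors
  have hsq : ∑ j, (x j / g + y j / g') ^ 2 = 2 + 2 * c / (g * g') := by
    have h1 : ∀ j, (x j / g + y j / g') ^ 2 = x j ^ 2 / g ^ 2 + y j ^ 2 / g' ^ 2 +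
        x j * y j * (2 / (g * g')) := by
      intro j
      field_simp
      ring
    simp only [h1, Finset.sum_add_distrib, ← Finset.sum_div, ← Finset.sum_mul]
    rw [hg2, hg'2, ← hc, div_self (by positivity), div_self (by positivity)]
    ring
  have hge : 0 ≤ 2 + 2 * c / (g * g') := by
    rw [← hsq]
    exact Finset.sum_nonneg fun j _ => sq_nonneg _
  have hcg : 0 ≤ g * g' + c := by
    have h1 : 2 + 2 * c / (g * g') = 2 * (g * g' + c) / (g * g') := by
      field_simp
    rw [h1, div_nonneg_iff] at hge
    rcases hge with h2 | h2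
    · linarith [h2.1]
    · have : 0 < g * g' := by positivity
      linarith [h2.2]
  rcases hcg.lt_or_eq with hlt | heq
  · left
    refine ⟨fun j => x j / g + y j / g', ?_, ?_⟩
    · have h1 : ∑ j, (x j / g + y j / g') * x j = (g * g' + c) / g' := by
        have h2 : ∀ j, (x j / g + y j / g') * x j = x j ^ 2 / g + x j * y j / g' := by
          intro j; ring
        simp only [h2, Finset.sum_add_distrib, ← Finset.sum_div]
        rw [hg2, ← hc]
        field_simp
      rw [h1]
      positivity
    · have h1 : ∑ j, (x j / g + y j / g') * y j = (g * g' + c) / g := by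
        have h2 : ∀ j, (x j / g + y j / g') * y j = x j * y j / g + y j ^ 2 / g' := by
          intro j; ring
        simp only [h2, Finset.sum_add_distrib, ← Finset.sum_div]
        rw [hg'2, ← hc]
        field_simp
        ring
      rw [h1]
      positivity
  · right
    have hc2 : c = -(g * g') := by linarith
    have h0 : ∑ j, (x j / g + y j / g') ^ 2 = 0 := by
      rw [hsq, hc2]
      field_simp
      ring
    have h1 : ∀ j, x j / g + y j / g' = 0 := by
      intro j
      have := (Finset.sum_eq_zero_iff_of_nonneg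
        (fun j _ => sq_nonneg (x j / g + y j / g'))).mp h0 j (Finset.mem_univ j)
      exact pow_eq_zero_iff (two_ne_zero) |>.mp this
    obtain ⟨n, hn1, hn2⟩ := exists_orth hd (fun j => x j / g)
    refine ⟨n, fun j => x j / g, g, g', hg0, hg'0, ?_, hn1, hn2, ?_, ?_⟩
    · simp only [div_pow, ← Finset.sum_div]
      rw [hg2, div_self (by positivity)]
    · intro j
      field_simp
    · intro j
      have h2 := h1 j
      have h3 : y j / g' = -(x j / g) := by linarith
      rw [div_eq_iff hg'0.ne'] at h3
      rw [h3]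
      ring

end Pool.Agent.Helper88.BW.CASES
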