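import Pool.Agent.Helper51.BW.Spec

/-! # BW, part CUTE -/

set_option autoImplicit false

namespace Pool.Agent.Helper88.BW.CUTE

open Pool.Agent.Helper51.BW

theorem main : S_CUTE := by
  intro d S b hb x y hxy hx hy
  obtain ⟨s, hs, rfl⟩ := hx
  obtain ⟨t, ht, rfl⟩ := hy
  obtain ⟨n, h | h⟩ := hxy
  · have h1 : n ≤ b := by
      by_contra hn
      exact hb s n hs (by omega) h.1.symm
    have h2 : b < n + 1 := by
      by_contra hn
      exact hb (n + 1) t (by omega) ht h.2
    have h3 : n = b := by omega
    subst h3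
    exact ⟨h.1.symm, h.2.symm⟩
  · exfalso
    have h1 : b < n := by
      by_contra hn
      exact hb n t (by omega) ht h.1
    exact hb s (n + 1) hs (by omega) h.2.symm

end Pool.Agent.Helper88.BW.CUTE
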