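import Pool.Agent.Helper88.BW.Base

/-! # BW, part POS2 -/

set_option autoImplicit false

namespace Pool.Agent.Helper88.BW.POS2

open Pool.Agent.Helper51.BW Pool.Agent.Helper88.BW

/-- a letter of positive probability with a positive value -/
theorem exists_letter {α : Type} [Fintype α] {p f : α → ℝ} (hp : ∀ e, 0 ≤ p e)
    (h : 0 < ∑ e, p e * f e) : ∃ e, 0 < p e ∧ 0 < f e := by
  by_contra hc
  push Not at hc
  have : ∑ e, p e * f e ≤ 0 := by
    refine Finset.sum_nonpos fun e _ => ?_
    rcases (hp e).lt_or_eq with h1 | h1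
    · exact mul_nonpos_of_nonneg_of_nonpos h1.le (hc e h1)
    · rw [← h1, zero_mul]
  linarith

theorem replicate_pos {α : Type} (f : α → ℝ) {e : α} (he : 0 < f e) (k t : ℕ)
    (h1 : 1 ≤ t) (h2 : t ≤ k) : 0 < wk f (List.replicate k e) t := by
  rw [wk_replicate f e k t h2]
  have : (1 : ℝ) ≤ t := by exact_mod_cast h1
  nlinarith

/-- `e^m l e^m` is positive -/
theorem sandwich {α : Type} (f : α → ℝ) {e : α} (he : 0 < f e) (m : ℕ) (l : List α)
    (hl : ∀ t ≤ l.length, -(m * f e) < wk f l t) (t : ℕ) (h1 : 1 ≤ t)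
    (h2 : t ≤ m + (l.length + m)) :
    0 < wk f (List.replicate m e ++ (l ++ List.replicate m e)) t := by
  have hrep : ∀ s ≤ m, wk f (List.replicate m e) s = s * f e := fun s hs =>
    wk_replicate f e m s hs
  rcases le_or_gt t m with h3 | h3
  · rw [wk_append_left f _ _ (by simpa using h3), hrep t h3]
    have : (1 : ℝ) ≤ t := by exact_mod_cast h1
    nlinarith
  · obtain ⟨s, rfl⟩ : ∃ s, t = (List.replicate m e).length + s := ⟨t - m, by simp; omega⟩
    rw [wk_append_right, List.length_replicate, hrep m le_rfl]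
    rw [List.length_replicate] at h2 h3
    rcases le_or_gt s l.length with h4 | h4
    · rw [wk_append_left f _ _ h4]
      have := hl s h4
      linarith
    · obtain ⟨r, rfl⟩ : ∃ r, s = l.length + r := ⟨s - l.length, by omega⟩
      rw [wk_append_right, hrep r (by omega)]
      have := hl l.length le_rfl
      have h5 : (0 : ℝ) ≤ r := Nat.cast_nonneg _
      nlinarith

theorem main (hLIN : S_LIN) : S_POS2 := by
  intro α _ p f hp hs hf
  obtain ⟨e, hpe, hfe⟩ := exists_letter hp hf
  have hpe1 : p e ≤ 1 := by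
    rw [← hs]
    exact Finset.single_le_sum (fun e _ => hp e) (Finset.mem_univ e)
  obtain ⟨s, hs0, hLIN⟩ := hLIN α p f hp hs hf
  -- choice of `m`
  obtain ⟨m, hm⟩ : ∃ m : ℕ, Real.exp (-(s * (m * f e))) ≤ 1 / 4 := by
    obtain ⟨m, hm⟩ := exists_nat_ge (2 / (s * f e))
    refine ⟨m, ?_⟩
    have h1 : 2 ≤ s * (m * f e) := by
      rw [div_le_iff₀ (by positivity)] at hm
      linarith
    have h2 : Real.exp (-(s * (m * f e))) ≤ Real.exp (-2) := Real.exp_le_exp.mpr (by linarith)
    have h3 : Real.exp (-2) ≤ 1 / 4 := by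
      have h4 : (2 : ℝ) ≤ Real.exp 1 := by
        have := Real.add_one_le_exp (1 : ℝ)
        linarith
      have h5 : Real.exp 2 = Real.exp 1 * Real.exp 1 := by rw [← Real.exp_add]; norm_num
      rw [Real.exp_neg, h5, one_div]
      gcongr
      nlinarith
    exact h2.trans h3
  refine ⟨p e ^ (2 * m) / 2, by positivity, fun k => ?_⟩
  set ev : List α → Prop := fun l => (∀ t, 1 ≤ t → t ≤ k → 0 < wk f l t) ∧
    (∀ t < k, wk f l t < wk f l k) with hev
  -- the event in terms of the list and its reversal
  have key : ∀ l : List α, l.length = k → (∀ t, 1 ≤ t → t ≤ k → 0 < wk f l t) →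
      (∀ t, 1 ≤ t → t ≤ k → 0 < wk f l.reverse t) → ev l := by
    intro l hl h1 h2
    refine ⟨h1, fun t ht => ?_⟩
    have h3 := h2 (k - t) (by omega) (by omega)
    rw [wk_reverse f l (k - t) (by omega), hl] at h3
    have h4 : k - (k - t) = t := by omega
    rw [h4] at h3
    linarith
  rcases lt_or_ge k (2 * m) with hk | hk
  · -- all letters equal
    have h1 := Ex_rep (p := p) hp e k (F := fun l => ind (ev l)) (fun l _ => ind_nonneg _)
    have h2 : ev (List.replicate k e) := by
      refine key _ (by simp) (fun t ht1 ht2 => replicate_pos f hfe k t ht1 ht2) ?_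
      rw [List.reverse_replicate]
      exact fun t ht1 ht2 => replicate_pos f hfe k t ht1 ht2
    rw [ind_true h2, mul_one] at h1
    have h3 : p e ^ (2 * m) ≤ p e ^ k := pow_le_pow_of_le_one hpe.le hpe1 hk.le
    have h4 : 0 < p e ^ (2 * m) := by positivity
    show p e ^ (2 * m) / 2 ≤ Ex p k (fun l => ind (ev l))
    linarith
  · obtain ⟨n, rfl⟩ : ∃ n, k = m + (n + m) := ⟨k - 2 * m, by omega⟩
    set bad1 : List α → Prop := fun l => ∃ t ≤ n, wk f l t ≤ -(m * f e) with hbad1
    set bad2 : List α → Prop := fun l => bad1 l.reverse with hbad2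
    have h1 : Pr p n bad1 ≤ 1 / 4 := (hLIN n (m * f e)).trans hm
    have h2 : Pr p n bad2 ≤ 1 / 4 := by
      rw [hbad2, Pr_rev]; exact h1
    set good : List α → Prop := fun l => (∀ t ≤ n, -(m * f e) < wk f l t) ∧
      ∀ t ≤ n, -(m * f e) < wk f l.reverse t with hgood
    have h3 : 1 / 2 ≤ Pr p n good := by
      have := Pr_two hp hs n good bad1 bad2 (by
        intro l hl hb1 hb2
        simp only [hbad1, hbad2, not_exists, not_and, not_le] at hb1 hb2
        exact ⟨hb1, hb2⟩)
      linarith
    have h4 : ∀ l, l.length = n → good l →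
        ev (List.replicate m e ++ (l ++ List.replicate m e)) := by
      intro l hl hg
      refine key _ (by simp [hl]) (fun t ht1 ht2 => ?_) ?_
      · exact sandwich f hfe m l (fun t ht => hg.1 t (by omega)) t ht1 (by omega)
      · have h5 : (List.replicate m e ++ (l ++ List.replicate m e)).reverse =
            List.replicate m e ++ (l.reverse ++ List.replicate m e) := by
          simp [List.reverse_append]
        rw [h5]
        intro t ht1 ht2
        exact sandwich f hfe m l.reverse (fun t ht => hg.2 t (by simpa [hl] using ht)) t ht1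
          (by simp [hl]; omega)
    show p e ^ (2 * m) / 2 ≤ Ex p (m + (n + m)) (fun l => ind (ev l))
    rw [Ex_append]
    have h6 := Ex_rep (p := p) hp e m (F := fun a => Ex p (n + m) (fun b => ind (ev (a ++ b))))
      (fun l _ => Ex_nonneg hp _ fun _ _ => ind_nonneg _)
    refine le_trans ?_ h6
    rw [Ex_append]
    have h7 : p e ^ m * Pr p n good ≤ Ex p n (fun l => Ex p m (fun b =>
        ind (ev (List.replicate m e ++ (l ++ b))))) := by
      unfold Pr
      rw [← Ex_smul]
      refine Ex_mono hp n fun l hl => ?_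
      have h8 := Ex_rep (p := p) hp e m (F := fun b => ind (ev (List.replicate m e ++ (l ++ b))))
        (fun _ _ => ind_nonneg _)
      refine le_trans ?_ h8
      exact mul_le_mul_of_nonneg_left (ind_mono (h4 l hl)) (by positivity)
    have h9 : p e ^ (2 * m) / 2 ≤ p e ^ m * (p e ^ m * Pr p n good) := by
      rw [two_mul, pow_add]
      have : 0 < p e ^ m := by positivity
      nlinarith [mul_pos this this]
    exact h9.trans (mul_le_mul_of_nonneg_left h7 (by positivity))

end Pool.Agent.Helper88.BW.POS2
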