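import Pool.Agent.Helper88.BW.Base

/-! # BW, part TYPE1 -/

set_option autoImplicit false

namespace Pool.Agent.Helper88.BW.TYPE1

open Pool.Agent.Helper51.BW Pool.Agent.Helper88.BW

theorem cut_of_phi {d : ℕ} {S : ℕ → V d} {b T : ℕ} (n : Fin d → ℝ)
    (h1 : ∀ s ≤ b, ip n (S s) ≤ ip n (S b))
    (h2 : ∀ t, b < t → t ≤ T → ip n (S b) < ip n (S t)) : CutT S b T := by
  intro s t hs ht hT he
  have a1 := h1 s hs
  have a2 := h2 t ht hT
  rw [he] at a1
  linarith

/-- the three strands: formulas for the walk -/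
theorem strands {α : Type} (f : α → ℝ) (lA lB lC : List α) (j k m : ℕ) (hA : lA.length = j)
    (hB : lB.length = k) (hC : lC.length = m) :
    (∀ t ≤ j, wk f (lA.reverse ++ lB.reverse ++ lC) t = wk f lA j - wk f lA (j - t)) ∧
    (∀ t ≤ k, wk f (lA.reverse ++ lB.reverse ++ lC) (j + t) =
      wk f lA j + (wk f lB k - wk f lB (k - t))) ∧
    (∀ t ≤ m, wk f (lA.reverse ++ lB.reverse ++ lC) (j + k + t) =
      wk f lA j + wk f lB k + wk f lC t) := by
  have hfA : wk f lA.reverse lA.reverse.length = wk f lA j := by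
    rw [List.length_reverse, wk_reverse f lA _ le_rfl, Nat.sub_self, wk_zero, hA, sub_zero]
  have hfB : wk f lB.reverse lB.reverse.length = wk f lB k := by
    rw [List.length_reverse, wk_reverse f lB _ le_rfl, Nat.sub_self, wk_zero, hB, sub_zero]
  refine ⟨fun t ht => ?_, fun t ht => ?_, fun t ht => ?_⟩
  · rw [List.append_assoc, wk_append_left f _ _ (by rw [List.length_reverse]; omega),
      wk_reverse f lA t (by omega), hA]
  · have h1 : j + t = lA.reverse.length + t := by rw [List.length_reverse, hA]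
    rw [List.append_assoc, h1, wk_append_right, hfA,
      wk_append_left f _ _ (by rw [List.length_reverse]; omega),
      wk_reverse f lB t (by omega), hB]
  · have h1 : j + k + t = lA.reverse.length + (lB.reverse.length + t) := by
      rw [List.length_reverse, hA, List.length_reverse, hB]; omega
    rw [List.append_assoc, h1, wk_append_right, hfA, wk_append_right, hfB]
    ring

theorem main (h1 : S_POS1) (h2 : S_POS2) (h3 : S_FAC) : S_TYPE1 := by
  intro d p h n hp hs hq hpn hqn
  obtain ⟨c1, hc1, H1⟩ := h1 (D d) p (fn n) (fun e => (hp e).le) hs hpn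
  have hq0 : ∀ e, 0 ≤ p e * Real.exp (-(fn h e)) := fun e =>
    mul_nonneg (hp e).le (Real.exp_pos _).le
  obtain ⟨c2, hc2, H2⟩ := h2 (D d) (fun e => p e * Real.exp (-(fn h e))) (fn n) hq0 hq hqn
  refine ⟨c1 * c2 * c1, by positivity, fun j k T hk hT => ?_⟩
  obtain ⟨m, rfl⟩ : ∃ m, T = j + k + m := ⟨T - (j + k), by omega⟩
  have hfac := h3 d p h j k m (fun L => Q1 j k (j + k + m) (pos L))
    (fun l => ∀ t, 1 ≤ t → t ≤ j → 0 < wk (fn n) l t)
    (fun l => (∀ t, 1 ≤ t → t ≤ k → 0 < wk (fn n) l t) ∧
      (∀ t < k, wk (fn n) l t < wk (fn n) l k))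
    (fun l => ∀ t, 1 ≤ t → t ≤ m → 0 < wk (fn n) l t) (fun e => (hp e).le) ?_
  · refine le_trans ?_ hfac
    have a1 := H1 j
    have a2 := H2 k
    have a3 := H1 m
    exact mul_le_mul (mul_le_mul a1 a2 hc2.le (hc1.le.trans a1)) a3 hc1.le
      (mul_nonneg (hc1.le.trans a1) (hc2.le.trans a2))
  · intro lA lB lC hA hB hC qA qB qC
    obtain ⟨sA, sB, sC⟩ := strands (fn n) lA lB lC j k m hA hB hC
    set L := lA.reverse ++ lB.reverse ++ lC with hL
    have φ : ∀ t, ip n (pos L t) = wk (fn n) L t := fun t => ip_pos n L t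
    have vj : wk (fn n) L j = wk (fn n) lA j := by
      rw [sA j le_rfl, Nat.sub_self, wk_zero, sub_zero]
    have vjk : wk (fn n) L (j + k) = wk (fn n) lA j + wk (fn n) lB k := by
      rw [sB k le_rfl, Nat.sub_self, wk_zero, sub_zero]
    have bpos : 0 < wk (fn n) lB k := qB.1 k hk le_rfl
    -- strictly increasing before `j`
    have e1 : ∀ s < j, wk (fn n) L s < wk (fn n) L j := by
      intro s hs'
      rw [sA s hs'.le, vj]
      have := qA (j - s) (by omega) (by omega)
      linarith
    have e2 : ∀ t, j < t → t ≤ j + k + m → wk (fn n) L j < wk (fn n) L t := by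
      intro t ht1 ht2
      rcases le_or_gt t (j + k) with h4 | h4
      · obtain ⟨s, rfl⟩ : ∃ s, t = j + s := ⟨t - j, by omega⟩
        rw [vj, sB s (by omega)]
        have := qB.2 (k - s) (by omega)
        linarith
      · obtain ⟨s, rfl⟩ : ∃ s, t = j + k + s := ⟨t - (j + k), by omega⟩
        rw [vj, sC s (by omega)]
        have := qC s (by omega) (by omega)
        linarith
    have e3 : ∀ s < j + k, wk (fn n) L s < wk (fn n) L (j + k) := by
      intro s hs'
      rcases le_or_gt s j with h4 | h4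
      · have h5 : wk (fn n) L s ≤ wk (fn n) L j := by
          rcases h4.lt_or_eq with h5 | h5
          · exact (e1 s h5).le
          · rw [h5]
        have := e2 (j + k) (by omega) (by omega)
        linarith
      · obtain ⟨r, rfl⟩ : ∃ r, s = j + r := ⟨s - j, by omega⟩
        rw [sB r (by omega), vjk]
        have := qB.1 (k - r) (by omega) (by omega)
        linarith
    have e4 : ∀ t, j + k < t → t ≤ j + k + m → wk (fn n) L (j + k) < wk (fn n) L t := by
      intro t ht1 ht2
      obtain ⟨s, rfl⟩ : ∃ s, t = j + k + s := ⟨t - (j + k), by omega⟩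
      rw [vjk, sC s (by omega)]
      have := qC s (by omega) (by omega)
      linarith
    refine ⟨cut_of_phi n (fun s hs' => ?_) (fun t ht1 ht2 => ?_),
      cut_of_phi n (fun s hs' => ?_) (fun t ht1 ht2 => ?_), fun s hs' he => ?_⟩
    · rw [φ, φ]
      rcases hs'.lt_or_eq with h5 | h5
      · exact (e1 s h5).le
      · rw [h5]
    · rw [φ, φ]; exact e2 t ht1 ht2
    · rw [φ, φ]
      rcases hs'.lt_or_eq with h5 | h5
      · exact (e3 s h5).le
      · rw [h5]
    · rw [φ, φ]; exact e4 t ht1 ht2
    · have h5 := e1 s hs'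
      rw [← φ, ← φ, he] at h5
      exact lt_irrefl _ h5

end Pool.Agent.Helper88.BW.TYPE1
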