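import Pool.Agent.Helper51.BW.Spec

/-!
# BW: elementary lemmas on `Ex`, `Pr`, `wk`, `pos`
-/

set_option autoImplicit false

namespace Pool.Agent.Helper88.BW

open Pool.Agent.Helper51.BW

theorem ind_nonneg (Q : Prop) : 0 ≤ ind Q := by
  unfold ind; split_ifs <;> norm_num

theorem ind_le_one (Q : Prop) : ind Q ≤ 1 := by
  unfold ind; split_ifs <;> norm_num

theorem ind_true {Q : Prop} (h : Q) : ind Q = 1 := by
  unfold ind; rw [if_pos h]

theorem ind_false {Q : Prop} (h : ¬ Q) : ind Q = 0 := by
  unfold ind; rw [if_neg h]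

theorem ind_mono {P Q : Prop} (h : P → Q) : ind P ≤ ind Q := by
  by_cases hP : P
  · rw [ind_true hP, ind_true (h hP)]
  · rw [ind_false hP]; exact ind_nonneg Q

variable {α : Type} [Fintype α] {p : α → ℝ}

theorem Ex_congr (n : ℕ) {F G : List α → ℝ} (h : ∀ l, l.length = n → F l = G l) :
    Ex p n F = Ex p n G := by
  induction n generalizing F G with
  | zero => exact h [] rfl
  | succ n ih =>
    simp only [Ex]
    refine Finset.sum_congr rfl fun e _ => ?_
    rw [ih (fun l hl => h (e :: l) (by simp [hl]))]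

theorem Ex_mono (hp : ∀ e, 0 ≤ p e) (n : ℕ) {F G : List α → ℝ}
    (h : ∀ l, l.length = n → F l ≤ G l) : Ex p n F ≤ Ex p n G := by
  induction n generalizing F G with
  | zero => exact h [] rfl
  | succ n ih =>
    simp only [Ex]
    refine Finset.sum_le_sum fun e _ => ?_
    exact mul_le_mul_of_nonneg_left (ih (fun l hl => h (e :: l) (by simp [hl]))) (hp e)

theorem Ex_add (n : ℕ) (F G : List α → ℝ) :
    Ex p n (fun l => F l + G l) = Ex p n F + Ex p n G := by
  induction n generalizing F G with
  | zero => rfl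
  | succ n ih =>
    simp only [Ex]
    rw [← Finset.sum_add_distrib]
    refine Finset.sum_congr rfl fun e _ => ?_
    rw [ih, mul_add]

theorem Ex_smul (n : ℕ) (c : ℝ) (F : List α → ℝ) :
    Ex p n (fun l => c * F l) = c * Ex p n F := by
  induction n generalizing F with
  | zero => rfl
  | succ n ih =>
    simp only [Ex]
    rw [Finset.mul_sum]
    refine Finset.sum_congr rfl fun e _ => ?_
    rw [ih]; ring

theorem Ex_const (hs : ∑ e, p e = 1) (n : ℕ) (c : ℝ) : Ex p n (fun _ => c) = c := by
  induction n with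
  | zero => rfl
  | succ n ih =>
    simp only [Ex]
    rw [ih, ← Finset.sum_mul, hs, one_mul]

theorem Ex_append (m n : ℕ) (F : List α → ℝ) :
    Ex p (m + n) F = Ex p m (fun a => Ex p n (fun b => F (a ++ b))) := by
  induction m generalizing F with
  | zero => rw [Nat.zero_add]; rfl
  | succ m ih =>
    rw [Nat.succ_add]
    simp only [Ex]
    refine Finset.sum_congr rfl fun e _ => ?_
    rw [ih]
    rfl

theorem Ex_nonneg (hp : ∀ e, 0 ≤ p e) (n : ℕ) {F : List α → ℝ} (h : ∀ l, l.length = n → 0 ≤ F l) :
    0 ≤ Ex p n F := by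
  induction n generalizing F with
  | zero => exact h [] rfl
  | succ n ih =>
    simp only [Ex]
    exact Finset.sum_nonneg fun e _ => mul_nonneg (hp e) (ih fun l hl => h (e :: l) (by simp [hl]))

theorem Ex_sum {ι : Type} (s : Finset ι) (n : ℕ) (F : ι → List α → ℝ) :
    Ex p n (fun l => ∑ i ∈ s, F i l) = ∑ i ∈ s, Ex p n (F i) := by
  induction n generalizing F with
  | zero => rfl
  | succ n ih =>
    simp only [Ex]
    rw [Finset.sum_comm]
    refine Finset.sum_congr rfl fun e _ => ?_
    rw [ih, Finset.mul_sum]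

/-- last letter -/
theorem Ex_snoc (n : ℕ) (F : List α → ℝ) :
    Ex p (n + 1) F = ∑ e, p e * Ex p n (fun l => F (l ++ [e])) := by
  rw [Ex_append]
  simp only [Ex]
  rw [Ex_sum]
  refine Finset.sum_congr rfl fun e _ => ?_
  rw [Ex_smul]

theorem Ex_rev (n : ℕ) (F : List α → ℝ) : Ex p n (fun l => F l.reverse) = Ex p n F := by
  induction n generalizing F with
  | zero => rfl
  | succ n ih =>
    rw [Ex_snoc n F]
    simp only [Ex]
    refine Finset.sum_congr rfl fun e _ => ?_
    rw [← ih (fun l => F (l ++ [e]))]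
    simp only [List.reverse_cons]

/-- all letters equal -/
theorem Ex_rep (hp : ∀ e, 0 ≤ p e) (e : α) (n : ℕ) {F : List α → ℝ}
    (h : ∀ l, l.length = n → 0 ≤ F l) : p e ^ n * F (List.replicate n e) ≤ Ex p n F := by
  induction n generalizing F with
  | zero => simp [Ex]
  | succ n ih =>
    simp only [Ex]
    have h1 := ih (F := fun l => F (e :: l)) (fun l hl => h (e :: l) (by simp [hl]))
    have h2 : p e * Ex p n (fun l => F (e :: l)) ≤ ∑ e, p e * Ex p n (fun l => F (e :: l)) := by
      refine Finset.single_le_sum (f := fun e => p e * Ex p n (fun l => F (e :: l)))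
        (fun e' _ => mul_nonneg (hp e') (Ex_nonneg hp n fun l hl => h (e' :: l) (by simp [hl])))
        (Finset.mem_univ e)
    refine le_trans ?_ h2
    rw [List.replicate_succ, pow_succ, mul_assoc, mul_comm (p e) (F _), ← mul_assoc, mul_comm]
    exact mul_le_mul_of_nonneg_left h1 (hp e)

theorem Pr_mono (hp : ∀ e, 0 ≤ p e) (n : ℕ) {P Q : List α → Prop}
    (h : ∀ l, l.length = n → P l → Q l) : Pr p n P ≤ Pr p n Q :=
  Ex_mono hp n fun l hl => ind_mono (h l hl)

theorem Pr_nonneg (hp : ∀ e, 0 ≤ p e) (n : ℕ) (P : List α → Prop) : 0 ≤ Pr p n P :=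
  Ex_nonneg hp n fun _ _ => ind_nonneg _

theorem Pr_le_one (hp : ∀ e, 0 ≤ p e) (hs : ∑ e, p e = 1) (n : ℕ) (P : List α → Prop) :
    Pr p n P ≤ 1 := by
  rw [← Ex_const (p := p) hs n 1]
  exact Ex_mono hp n fun _ _ => ind_le_one _

theorem Pr_rev (n : ℕ) (P : List α → Prop) : Pr p n (fun l => P l.reverse) = Pr p n P :=
  Ex_rev n (fun l => ind (P l))

/-- complement: the event holds unless one of the two bad events holds -/
theorem Pr_two (hp : ∀ e, 0 ≤ p e) (hs : ∑ e, p e = 1) (n : ℕ) (P Q R : List α → Prop)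
    (h : ∀ l, l.length = n → ¬ Q l → ¬ R l → P l) : 1 - Pr p n Q - Pr p n R ≤ Pr p n P := by
  have h1 : Ex p n (fun _ => (1 : ℝ)) ≤ Ex p n (fun l => ind (P l) + (ind (Q l) + ind (R l))) := by
    refine Ex_mono hp n fun l hl => ?_
    have a := ind_nonneg (P l)
    have b := ind_nonneg (Q l)
    have c := ind_nonneg (R l)
    by_cases hQ : Q l
    · rw [ind_true hQ]; linarith
    · by_cases hR : R l
      · rw [ind_true hR]; linarith
      · rw [ind_true (h l hl hQ hR)]; linarith
  rw [Ex_const hs, Ex_add, Ex_add] at h1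
  unfold Pr
  linarith

/-! ### the walk -/

omit [Fintype α] in
theorem wk_zero (f : α → ℝ) (l : List α) : wk f l 0 = 0 := by simp [wk]

omit [Fintype α] in
theorem wk_full (f : α → ℝ) (l : List α) : wk f l l.length = (l.map f).sum := by simp [wk]

omit [Fintype α] in
theorem wk_append_left (f : α → ℝ) (l l' : List α) {t : ℕ} (h : t ≤ l.length) :
    wk f (l ++ l') t = wk f l t := by
  unfold wk
  rw [List.take_append_of_le_length h]

omit [Fintype α] in
theorem wk_append_right (f : α → ℝ) (l l' : List α) (t : ℕ) :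
    wk f (l ++ l') (l.length + t) = wk f l l.length + wk f l' t := by
  unfold wk
  rw [List.take_length_add_append, List.map_append, List.sum_append, List.take_length]

omit [Fintype α] in
theorem wk_replicate (f : α → ℝ) (e : α) (m t : ℕ) (h : t ≤ m) :
    wk f (List.replicate m e) t = t * f e := by
  unfold wk
  rw [List.take_replicate, min_eq_left h]
  simp

omit [Fintype α] in
/-- reversal -/
theorem wk_reverse (f : α → ℝ) (l : List α) (t : ℕ) (h : t ≤ l.length) :
    wk f l.reverse t = wk f l l.length - wk f l (l.length - t) := by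
  unfold wk
  have h1 : l = l.take (l.length - t) ++ l.drop (l.length - t) := (List.take_append_drop _ _).symm
  have h2 : (l.reverse.take t) = (l.drop (l.length - t)).reverse := by
    rw [List.take_reverse]
  rw [h2, List.take_length]
  have h3 : (l.map f).sum = ((l.take (l.length - t)).map f).sum +
      ((l.drop (l.length - t)).map f).sum := by
    rw [← List.sum_append, ← List.map_append, List.take_append_drop]
  rw [h3, List.map_reverse, List.sum_reverse]
  ring

theorem ip_add {d : ℕ} (a : Fin d → ℝ) (x y : V d) : ip a (x + y) = ip a x + ip a y := by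
  unfold ip
  rw [← Finset.sum_add_distrib]
  refine Finset.sum_congr rfl fun j _ => ?_
  rw [Pi.add_apply]; push_cast; ring

theorem ip_zero {d : ℕ} (a : Fin d → ℝ) : ip a 0 = 0 := by simp [ip]

theorem ip_neg {d : ℕ} (a : Fin d → ℝ) (x : V d) : ip a (-x) = -ip a x := by
  unfold ip
  rw [← Finset.sum_neg_distrib]
  refine Finset.sum_congr rfl fun j _ => ?_
  rw [Pi.neg_apply]; push_cast; ring

theorem ip_sub {d : ℕ} (a : Fin d → ℝ) (x y : V d) : ip a (x - y) = ip a x - ip a y := by
  rw [sub_eq_add_neg, ip_add, ip_neg, sub_eq_add_neg]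

theorem ip_pos {d : ℕ} (a : Fin d → ℝ) (l : List (D d)) (t : ℕ) :
    ip a (pos l t) = wk (fn a) l t := by
  unfold pos wk
  induction l.take t with
  | nil => simp [ip_zero]
  | cons e l ih => rw [List.map_cons, List.sum_cons, List.map_cons, List.sum_cons, ip_add, ih]; rfl

end Pool.Agent.Helper88.BW
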