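import Pool.Agent.Helper51.BW.Spec2
import Pool.Agent.Helper88.BW.Base

/-! # BW, part RETB -/

set_option autoImplicit false

namespace Pool.Agent.Helper88.BW.RETB

open Pool.Agent.Helper51.BW MeasureTheory Filter Topology

theorem pos_append_right {d : ℕ} (l l' : List (D d)) (t : ℕ) :
    pos (l ++ l') (l.length + t) = pos l l.length + pos l' t := by
  unfold pos
  rw [List.take_length_add_append, List.map_append, List.sum_append, List.take_length]

theorem pos_append_left {d : ℕ} (l l' : List (D d)) {t : ℕ} (h : t ≤ l.length) :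
    pos (l ++ l') t = pos l t := by
  unfold pos
  rw [List.take_append_of_le_length h]

/-- the probability of a return in `m` steps -/
theorem ret_list (hLIN : S_LIN) {d : ℕ} (p : D d → ℝ) (hp : ∀ e, 0 < p e) (hs : ∑ e, p e = 1)
    (a : Fin d → ℝ) (ha : 0 < ∑ e, p e * fn a e) :
    ∃ c > 0, ∀ s m : ℕ, Ex p (s + m) (fun L => ind (pos L s = pos L (s + m))) ≤
      Real.exp (-(c * m)) := by
  set g := ∑ e, p e * fn a e with hg
  have hmean : 0 < ∑ e, p e * (fn a e - g / 2) := by
    have : ∑ e, p e * (fn a e - g / 2) = g / 2 := by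
      simp only [mul_sub, Finset.sum_sub_distrib, ← Finset.sum_mul]
      rw [hs, ← hg]
      ring
    rw [this]
    linarith
  obtain ⟨σ, hσ, H⟩ := hLIN (D d) p (fun e => fn a e - g / 2) (fun e => (hp e).le) hs hmean
  refine ⟨σ * (g / 2), by positivity, fun s m => ?_⟩
  have hwk : ∀ (l : List (D d)) (t : ℕ), t ≤ l.length →
      wk (fun e => fn a e - g / 2) l t = wk (fn a) l t - t * (g / 2) := by
    intro l t ht
    unfold wk
    have h1 : ∀ l' : List (D d), (l'.map (fun e => fn a e - g / 2)).sum =
        (l'.map (fn a)).sum - l'.length * (g / 2) := by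
      intro l'
      induction l' with
      | nil => simp
      | cons e l' ih =>
        rw [List.map_cons, List.sum_cons, ih, List.map_cons, List.sum_cons, List.length_cons]
        push_cast
        ring
    rw [h1, List.length_take, min_eq_left ht]
  rw [Ex_append]
  calc Ex p s (fun b => Ex p m (fun c => ind (pos (b ++ c) s = pos (b ++ c) (s + m))))
      ≤ Ex p s (fun _ => Real.exp (-(σ * (m * (g / 2))))) := by
        refine Ex_mono (fun e => (hp e).le) s fun b hb => ?_
        refine le_trans (Ex_mono (fun e => (hp e).le) m fun c hc => ind_mono ?_) (H m (m * (g / 2)))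
        intro he
        refine ⟨m, le_rfl, ?_⟩
        rw [hwk c m hc.ge]
        have h1 : pos (b ++ c) (s + m) = pos b s + pos c m := by
          rw [← hb, pos_append_right]
        rw [pos_append_left b c hb.ge, h1] at he
        have h2 : pos c m = 0 := by
          have := congrArg (fun z => z - pos b s) he
          simpa using this.symm
        have h3 : wk (fn a) c m = 0 := by
          rw [← ip_pos, h2, ip_zero]
        rw [h3]
        linarith
    _ = Real.exp (-(σ * (g / 2) * m)) := by
        rw [Ex_const hs]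
        congr 1
        ring

theorem main (hLAW : S_LAW) (hLIN : S_LIN) : S_RETB := by
  intro d Ω _ μ _ p X hp hs hX a ha A δ hδ
  obtain ⟨c, hc, H⟩ := ret_list hLIN (p 0) (hp 0) (hs 0) a ha
  -- one return
  have hone : ∀ s m : ℕ, μ {ω | X 0 s ω = X 0 (s + m) ω} ≤
      ENNReal.ofReal (Real.exp (-(c * m))) := by
    intro s m
    have hmeas : MeasurableSet {ω | X 0 s ω = X 0 (s + m) ω} :=
      measurableSet_eq_fun (hX.meas 0 s) (hX.meas 0 (s + m))
    have h1 := hLAW d Ω μ p X hp hs hX (s + m) (fun S => ind (S s = S (s + m)))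
      (fun S S' h => by rw [h s (by omega), h (s + m) le_rfl])
    have h2 : ∫ ω, ind (X 0 s ω = X 0 (s + m) ω) ∂μ = μ.real {ω | X 0 s ω = X 0 (s + m) ω} := by
      rw [← integral_indicator_one hmeas]
      refine integral_congr_ae (ae_of_all _ fun ω => ?_)
      by_cases h : X 0 s ω = X 0 (s + m) ω
      · simp only [ind_true h]
        rw [Set.indicator_of_mem (by exact h)]
        rfl
      · simp only [ind_false h]
        rw [Set.indicator_of_notMem (by exact h)]
    have h3 : μ.real {ω | X 0 s ω = X 0 (s + m) ω} ≤ Real.exp (-(c * m)) := by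
      rw [← h2, h1]
      exact H s m
    rw [← ofReal_measureReal (measure_ne_top μ _)]
    exact ENNReal.ofReal_le_ofReal h3
  -- the series
  set u : ℕ → ℝ := fun m => ((m : ℝ) + (2 * A + 1)) * Real.exp (-(c * m)) with hu
  have hu0 : ∀ m, 0 ≤ u m := fun m => by positivity
  have hsum : Summable u := by
    have h1 : ∀ m : ℕ, Real.exp (-(c * m)) = Real.exp (-c) ^ m := by
      intro m
      rw [← Real.exp_nat_mul]
      congr 1
      ring
    have hr : ‖Real.exp (-c)‖ < 1 := by
      rw [Real.norm_eq_abs, abs_of_pos (Real.exp_pos _)]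
      have := Real.exp_lt_exp.mpr (show -c < 0 by linarith)
      rwa [Real.exp_zero] at this
    have h2 := summable_pow_mul_geometric_of_norm_lt_one 1 hr
    have h3 := summable_geometric_of_norm_lt_one hr
    have h4 : u = fun m : ℕ => (m : ℝ) ^ 1 * Real.exp (-c) ^ m +
        (2 * A + 1) * Real.exp (-c) ^ m := by
      funext m
      rw [hu]
      simp only [h1]
      ring
    rw [h4]
    exact h2.add (h3.mul_left _)
  have htail := tendsto_sum_nat_add u
  obtain ⟨L1, hL1⟩ := ((tendsto_order.mp htail).2 δ hδ).exists_forall_of_atTop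
  refine ⟨L1 + A, fun L hL j => ?_⟩
  obtain ⟨n0, rfl⟩ : ∃ n0, L = n0 + A := ⟨L - A, by omega⟩
  have hn0 : L1 ≤ n0 := by omega
  have hsub : {ω | ∃ s t, s ≤ j + A ∧ j ≤ t + A ∧ s + (n0 + A) ≤ t + A ∧ X 0 s ω = X 0 t ω} ⊆
      ⋃ n : ℕ, ⋃ i ∈ Finset.range (n + n0 + (2 * A + 1)),
        {ω | X 0 (j + A - i) ω = X 0 (j + A - i + (n + n0)) ω} := by
    rintro ω ⟨s, t, h1, h2, h3, h4⟩
    rw [Set.mem_iUnion]
    refine ⟨t - s - n0, ?_⟩
    rw [Set.mem_iUnion₂]
    refine ⟨j + A - s, ?_, ?_⟩
    · rw [Finset.mem_range]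
      omega
    · have e1 : j + A - (j + A - s) = s := by omega
      have e2 : s + (t - s - n0 + n0) = t := by omega
      show X 0 (j + A - (j + A - s)) ω = X 0 (j + A - (j + A - s) + (t - s - n0 + n0)) ω
      rw [e1, e2]
      exact h4
  calc μ {ω | ∃ s t, s ≤ j + A ∧ j ≤ t + A ∧ s + (n0 + A) ≤ t + A ∧ X 0 s ω = X 0 t ω}
      ≤ ∑' n : ℕ, μ (⋃ i ∈ Finset.range (n + n0 + (2 * A + 1)),
        {ω | X 0 (j + A - i) ω = X 0 (j + A - i + (n + n0)) ω}) :=
        (measure_mono hsub).trans (measure_iUnion_le _)
    _ ≤ ∑' n : ℕ, ENNReal.ofReal (u (n + n0)) := by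
        refine ENNReal.tsum_le_tsum fun n => ?_
        refine (measure_biUnion_finset_le _ _).trans ?_
        calc ∑ i ∈ Finset.range (n + n0 + (2 * A + 1)),
              μ {ω | X 0 (j + A - i) ω = X 0 (j + A - i + (n + n0)) ω}
            ≤ ∑ _i ∈ Finset.range (n + n0 + (2 * A + 1)),
              ENNReal.ofReal (Real.exp (-(c * ((n + n0 : ℕ) : ℝ)))) :=
              Finset.sum_le_sum fun i _ => hone _ _
          _ = ENNReal.ofReal (u (n + n0)) := by
              rw [Finset.sum_const, Finset.card_range, nsmul_eq_mul, hu]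
              simp only
              rw [ENNReal.ofReal_mul (by positivity)]
              congr 1
              rw [← ENNReal.ofReal_natCast]
              congr 1
              push_cast
              ring
    _ = ENNReal.ofReal (∑' n : ℕ, u (n + n0)) :=
        (ENNReal.ofReal_tsum_of_nonneg (fun n => hu0 _) ((summable_nat_add_iff n0).mpr hsum)).symm
    _ ≤ ENNReal.ofReal δ := ENNReal.ofReal_le_ofReal (hL1 n0 hn0).le

end Pool.Agent.Helper88.BW.RETB
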